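import Pool.Agent.H365Z.Nor.Arith
import Pool.Agent.H365Z.Nor.Defs

/-! MP_26ac3f_lc, Q1: the union of the sets of normal numbers over all bases `± Pisot` is
`Σ⁰₄`-complete. -/

set_option autoImplicit false

namespace Pool.Agent.Results.MP_26ac3f_lc.AUnionSigma4

open Pool.Agent.H365Z.NorDefs

/-- `U = ⋃ 𝒩(α)` over all real `α` with `|α|` a Pisot number is `Σ⁰₄`, and every `Σ⁰₄` subset of a
zero-dimensional Polish space is a continuous preimage of `U`. -/
theorem result :
    IsSigma04 (⋃ α ∈ {α : ℝ | IsPisot |α|}, Normal α) ∧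
      ∀ (Y : Type) [TopologicalSpace Y] [PolishSpace Y],
        TopologicalSpace.IsTopologicalBasis {s : Set Y | IsClopen s} →
          ∀ B : Set Y, IsSigma04 B →
            ∃ f : Y → ℝ, Continuous f ∧ B = f ⁻¹' ⋃ α ∈ {α : ℝ | IsPisot |α|}, Normal α := by
  refine ⟨(H365Z.Nor.union_complete (Y := ℝ) pisot_countable (fun _ h => h.1)
    fun p hp => pisot_nat hp.one_lt).1, fun Y _ _ hY B hB => ?_⟩
  obtain ⟨B, hB, rfl⟩ := hB
  exact (H365Z.Nor.union_complete pisot_countable (fun _ h => h.1)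
    fun p hp => pisot_nat hp.one_lt).2 hY B hB

end Pool.Agent.Results.MP_26ac3f_lc.AUnionSigma4
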