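import Pool.Agent.H365Z.Nor.Arith
import Pool.Agent.H365Z.Nor.Defs

/-! MP_26ac3f_lc, Q2: the intersection of the sets of normal numbers over all bases `± Pisot` is
`Π⁰₃`-complete. -/

set_option autoImplicit false

namespace Pool.Agent.Results.MP_26ac3f_lc.BInterPi3

open Pool.Agent.H365Z.NorDefs

/-- `I = ⋂ 𝒩(α)` over all real `α` with `|α|` a Pisot number is `Π⁰₃`, and every `Π⁰₃` subset of a
zero-dimensional Polish space is a continuous preimage of `I`. -/
theorem result :
    IsPi03 (⋂ α ∈ {α : ℝ | IsPisot |α|}, Normal α) ∧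
      ∀ (Y : Type) [TopologicalSpace Y] [PolishSpace Y],
        TopologicalSpace.IsTopologicalBasis {s : Set Y | IsClopen s} →
          ∀ B : Set Y, IsPi03 B →
            ∃ f : Y → ℝ, Continuous f ∧ B = f ⁻¹' ⋂ α ∈ {α : ℝ | IsPisot |α|}, Normal α :=
  ⟨(H365Z.Nor.inter_complete (Y := ℝ) pisot_countable ⟨_, pisot_nat one_lt_two⟩
    fun _ h => h.1).1, fun _ _ _ hY B hB =>
      (H365Z.Nor.inter_complete pisot_countable ⟨_, pisot_nat one_lt_two⟩
        fun _ h => h.1).2 hY B hB⟩

end Pool.Agent.Results.MP_26ac3f_lc.BInterPi3
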